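import Pool.Agent.W225.TD2.Stm

/-!
# Project TD2, part SPARSE (helper689)
-/

set_option autoImplicit false

open Finset

namespace Pool.Agent.W689.TD2

open Pool.Agent.W225.TD2

theorem constF {n : ℕ} (f : Fin (n + 4) → ℤ) (h : ∀ i, f (i + 1) = f i) : ∀ i, f i = f 0 := by
  intro i
  induction i using Fin.induction with
  | zero => rfl
  | succ i ih => rw [← Fin.coeSucc_eq_succ, h, ih]

theorem shiftSum {n : ℕ} (f : Fin (n + 4) → ℤ) : ∑ i, f (i + 1) = ∑ i, f i :=
  Equiv.sum_comp (Equiv.addRight (1 : Fin (n + 4))) f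

theorem sq01 (a : ℤ) (h : a = 0 ∨ a = 1) : a ^ 2 = a := by
  rcases h with h | h <;> subst h <;> norm_num

theorem sqdiff {n : ℕ} (f g : Fin (n + 4) → ℤ) (hf : ∀ i, f i = 0 ∨ f i = 1)
    (hg : ∀ i, g i = 0 ∨ g i = 1) :
    ∑ i, (f i - g i) ^ 2 = ∑ i, f i + ∑ i, g i - 2 * ∑ i, f i * g i := by
  rw [Finset.mul_sum, ← Finset.sum_add_distrib, ← Finset.sum_sub_distrib]
  refine Finset.sum_congr rfl fun i _ => ?_
  have h1 := sq01 _ (hf i)
  have h2 := sq01 _ (hg i)
  nlinarith

theorem zero_of {n : ℕ} (f : Fin (n + 4) → ℤ) (h0 : ∀ i, 0 ≤ f i) (h : ∑ i, f i ≤ 0) :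
    ∀ i, f i = 0 := by
  have h1 : ∑ i, f i = 0 := le_antisymm h (Finset.sum_nonneg fun i _ => h0 i)
  intro i
  exact (Finset.sum_eq_zero_iff_of_nonneg (fun i _ => h0 i)).1 h1 i (Finset.mem_univ i)

theorem dCases {n : ℕ} (d : Fin (n + 4) → ℤ) (hd : ∀ i, d i = 0 ∨ d i = 1) :
    (∀ i, d i = 0) ∨ (∀ i, d i = 1) ∨ ∑ i, d i * d (i + 1) + 1 ≤ ∑ i, d i := by
  by_cases h : ∑ i, (d i - d (i + 1)) ^ 2 ≤ 0
  · have h1 := zero_of (fun i => (d i - d (i + 1)) ^ 2) (fun i => sq_nonneg _) h
    have h2 : ∀ i, d (i + 1) = d i := by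
      intro i
      have := pow_eq_zero_iff (two_ne_zero) |>.1 (h1 i)
      linarith
    have h3 := constF d h2
    rcases hd 0 with h0 | h0
    · left; intro i; rw [h3 i, h0]
    · right; left; intro i; rw [h3 i, h0]
  · right; right
    have h1 := sqdiff d (fun i => d (i + 1)) hd (fun i => hd _)
    have h2 := shiftSum d
    rw [h2] at h1
    omega

theorem xyCases {n : ℕ} (x y : Fin (n + 4) → ℤ) (hx : ∀ i, x i = 0 ∨ x i = 1)
    (hy : ∀ i, y i = 0 ∨ y i = 1) :
    (∀ i, x i = 0 ∧ y i = 0) ∨ (∀ i, x i = 1 ∧ y i = 1) ∨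
      ∑ i, x i * y i + ∑ i, y i * x (i + 1) + 1 ≤ ∑ i, x i + ∑ i, y i := by
  by_cases h : ∑ i, (x i - y i) ^ 2 + ∑ i, (y i - x (i + 1)) ^ 2 ≤ 0
  · have g1 : 0 ≤ ∑ i, (x i - y i) ^ 2 := Finset.sum_nonneg fun i _ => sq_nonneg _
    have g2 : 0 ≤ ∑ i, (y i - x (i + 1)) ^ 2 := Finset.sum_nonneg fun i _ => sq_nonneg _
    have h1 := zero_of (fun i => (x i - y i) ^ 2) (fun i => sq_nonneg _) (by linarith)
    have h2 := zero_of (fun i => (y i - x (i + 1)) ^ 2) (fun i => sq_nonneg _)
      (by linarith)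
    have e1 : ∀ i, y i = x i := by
      intro i
      have := pow_eq_zero_iff (two_ne_zero) |>.1 (h1 i)
      linarith
    have e2 : ∀ i, x (i + 1) = x i := by
      intro i
      have := pow_eq_zero_iff (two_ne_zero) |>.1 (h2 i)
      have := e1 i
      linarith
    have h3 := constF x e2
    rcases hx 0 with h0 | h0
    · left; intro i; rw [e1 i, h3 i, h0]; simp
    · right; left; intro i; rw [e1 i, h3 i, h0]; simp
  · right; right
    have h1 := sqdiff x y hx hy
    have h2 := sqdiff y (fun i => x (i + 1)) hy (fun i => hx _)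
    have h3 := shiftSum x
    rw [h3] at h2
    omega

theorem fin {k s e : ℤ} (hk : 4 ≤ k) (hs : 3 ≤ s) (h : 13 ≤ 10 * s - 6 * e) :
    (e - 1) * (3 * k - 2) ≤ (5 * k - 1) * (s - 2) := by
  have h1 : 3 * (e - 1) ≤ 5 * (s - 2) := by omega
  have h2 : 3 * (e - 1) * (3 * k - 2) ≤ 5 * (s - 2) * (3 * k - 2) :=
    mul_le_mul_of_nonneg_right h1 (by linarith)
  nlinarith

theorem sparse : S_SPARSE := by
  intro n d x y hd hx hy hs
  have hk : (4 : ℤ) ≤ (n : ℤ) + 4 := by omega
  have E0 : ∑ i, (d i + x i + y i) = ∑ i, d i + ∑ i, x i + ∑ i, y i := by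
    rw [Finset.sum_add_distrib, Finset.sum_add_distrib]
  have E1 : ∑ i, (d i * d (i + 1) + d i * x i + d i * y (i + 1) + x i * y i + y i * x (i + 1))
      = ∑ i, d i * d (i + 1) + ∑ i, d i * x i + ∑ i, d i * y (i + 1) + ∑ i, x i * y i
        + ∑ i, y i * x (i + 1) := by
    rw [Finset.sum_add_distrib, Finset.sum_add_distrib, Finset.sum_add_distrib,
      Finset.sum_add_distrib]
  rw [E0] at hs ⊢
  rw [E1]
  have hY := shiftSum y
  have hX := shiftSum x
  have hD := shiftSum d
  have hcard : ∀ c : ℤ, ∑ _i : Fin (n + 4), c = ((n : ℤ) + 4) * c := by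
    intro c; simp
  -- the mixed terms
  have P1 : 0 ≤ ∑ i, (2 * (d i * (1 - x i)) + 4 * (x i * (1 - d i))
      + 2 * (d i * (1 - y (i + 1))) + 4 * (y (i + 1) * (1 - d i))) := by
    refine Finset.sum_nonneg fun i _ => ?_
    rcases hd i with h | h <;> rcases hx i with h' | h' <;> rcases hy (i + 1) with h'' | h'' <;>
      rw [h, h', h''] <;> norm_num
  have P2 : ∑ i, (2 * (d i * (1 - x i)) + 4 * (x i * (1 - d i))
      + 2 * (d i * (1 - y (i + 1))) + 4 * (y (i + 1) * (1 - d i)))
      = 4 * ∑ i, d i + 4 * ∑ i, x i + 4 * ∑ i, y i - 6 * ∑ i, d i * x i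
        - 6 * ∑ i, d i * y (i + 1) := by
    rw [← hY, Finset.mul_sum, Finset.mul_sum, Finset.mul_sum, Finset.mul_sum, Finset.mul_sum,
      ← Finset.sum_add_distrib, ← Finset.sum_add_distrib, ← Finset.sum_sub_distrib,
      ← Finset.sum_sub_distrib]
    exact Finset.sum_congr rfl fun i _ => by ring
  rcases dCases d hd with h0 | h1 | hm
  · -- d = 0
    have z1 : ∑ i, d i = 0 := Finset.sum_eq_zero fun i _ => h0 i
    have z2 : ∑ i, d i * d (i + 1) = 0 := Finset.sum_eq_zero fun i _ => by rw [h0 i, zero_mul]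
    have z3 : ∑ i, d i * x i = 0 := Finset.sum_eq_zero fun i _ => by rw [h0 i, zero_mul]
    have z4 : ∑ i, d i * y (i + 1) = 0 := Finset.sum_eq_zero fun i _ => by rw [h0 i, zero_mul]
    rw [z1] at hs
    rw [z1, z2, z3, z4]
    rcases xyCases x y hx hy with g0 | g1 | gm
    · have w1 : ∑ i, x i = 0 := Finset.sum_eq_zero fun i _ => (g0 i).1
      have w2 : ∑ i, y i = 0 := Finset.sum_eq_zero fun i _ => (g0 i).2
      omega
    · have w1 : ∑ i, x i = ((n : ℤ) + 4) := by
        rw [Finset.sum_congr rfl fun i _ => (g1 i).1, hcard]; ring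
      have w2 : ∑ i, y i = ((n : ℤ) + 4) := by
        rw [Finset.sum_congr rfl fun i _ => (g1 i).2, hcard]; ring
      have w3 : ∑ i, x i * y i = ((n : ℤ) + 4) := by
        rw [Finset.sum_congr rfl fun i _ => by rw [(g1 i).1, (g1 i).2], hcard]; ring
      have w4 : ∑ i, y i * x (i + 1) = ((n : ℤ) + 4) := by
        rw [Finset.sum_congr rfl fun i _ => by rw [(g1 i).2, (g1 (i + 1)).1], hcard]; ring
      apply fin hk <;> omega
    · apply fin hk <;> omega
  · -- d = 1
    have z1 : ∑ i, d i = ((n : ℤ) + 4) := by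
      rw [Finset.sum_congr rfl fun i _ => h1 i, hcard]; ring
    have z2 : ∑ i, d i * d (i + 1) = ((n : ℤ) + 4) := by
      rw [Finset.sum_congr rfl fun i _ => by rw [h1 i, h1 (i + 1)], hcard]; ring
    have z3 : ∑ i, d i * x i = ∑ i, x i :=
      Finset.sum_congr rfl fun i _ => by rw [h1 i, one_mul]
    have z4 : ∑ i, d i * y (i + 1) = ∑ i, y i := by
      rw [← hY]; exact Finset.sum_congr rfl fun i _ => by rw [h1 i, one_mul]
    rw [z1, z2, z3, z4]
    rcases xyCases x y hx hy with g0 | g1 | gm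
    · have w1 : ∑ i, x i = 0 := Finset.sum_eq_zero fun i _ => (g0 i).1
      have w2 : ∑ i, y i = 0 := Finset.sum_eq_zero fun i _ => (g0 i).2
      have w3 : ∑ i, x i * y i = 0 := Finset.sum_eq_zero fun i _ => by rw [(g0 i).1, zero_mul]
      have w4 : ∑ i, y i * x (i + 1) = 0 :=
        Finset.sum_eq_zero fun i _ => by rw [(g0 i).2, zero_mul]
      rw [w1, w2, w3, w4]
      nlinarith
    · have w1 : ∑ i, x i = ((n : ℤ) + 4) := by
        rw [Finset.sum_congr rfl fun i _ => (g1 i).1, hcard]; ring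
      have w2 : ∑ i, y i = ((n : ℤ) + 4) := by
        rw [Finset.sum_congr rfl fun i _ => (g1 i).2, hcard]; ring
      have w3 : ∑ i, x i * y i = ((n : ℤ) + 4) := by
        rw [Finset.sum_congr rfl fun i _ => by rw [(g1 i).1, (g1 i).2], hcard]; ring
      have w4 : ∑ i, y i * x (i + 1) = ((n : ℤ) + 4) := by
        rw [Finset.sum_congr rfl fun i _ => by rw [(g1 i).2, (g1 (i + 1)).1], hcard]; ring
      rw [w1, w2, w3, w4]
      apply le_of_eq; ring
    · have b1 : ∑ i, x i ≤ ((n : ℤ) + 4) := by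
        have : ∑ i, x i ≤ ∑ _i : Fin (n + 4), (1 : ℤ) :=
          Finset.sum_le_sum fun i _ => by rcases hx i with h | h <;> rw [h] <;> norm_num
        rw [hcard] at this; linarith
      have b2 : ∑ i, y i ≤ ((n : ℤ) + 4) := by
        have : ∑ i, y i ≤ ∑ _i : Fin (n + 4), (1 : ℤ) :=
          Finset.sum_le_sum fun i _ => by rcases hy i with h | h <;> rw [h] <;> norm_num
        rw [hcard] at this; linarith
      generalize ∑ i, x i = X at *
      generalize ∑ i, y i = Y at *
      generalize ∑ i, x i * y i = C1 at *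
      generalize ∑ i, y i * x (i + 1) = C2 at *
      generalize (n : ℤ) + 4 = k at *
      have e1 : (k + X + Y + C1 + C2 - 1) * (3 * k - 2) ≤ (k + 2 * (X + Y) - 2) * (3 * k - 2) :=
        mul_le_mul_of_nonneg_right (by linarith) (by linarith)
      have e2 : 0 ≤ (k - 3) * (2 * k - (X + Y)) := mul_nonneg (by linarith) (by linarith)
      nlinarith
  · -- d mixed
    rcases xyCases x y hx hy with g0 | g1 | gm
    · have w1 : ∑ i, x i = 0 := Finset.sum_eq_zero fun i _ => (g0 i).1
      have w2 : ∑ i, y i = 0 := Finset.sum_eq_zero fun i _ => (g0 i).2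
      have w3 : ∑ i, x i * y i = 0 := Finset.sum_eq_zero fun i _ => by rw [(g0 i).1, zero_mul]
      have w4 : ∑ i, y i * x (i + 1) = 0 :=
        Finset.sum_eq_zero fun i _ => by rw [(g0 i).2, zero_mul]
      have w5 : ∑ i, d i * x i = 0 := Finset.sum_eq_zero fun i _ => by rw [(g0 i).1, mul_zero]
      have w6 : ∑ i, d i * y (i + 1) = 0 :=
        Finset.sum_eq_zero fun i _ => by rw [(g0 (i + 1)).2, mul_zero]
      apply fin hk <;> omega
    · have w1 : ∑ i, x i = ((n : ℤ) + 4) := by
        rw [Finset.sum_congr rfl fun i _ => (g1 i).1, hcard]; ring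
      have w2 : ∑ i, y i = ((n : ℤ) + 4) := by
        rw [Finset.sum_congr rfl fun i _ => (g1 i).2, hcard]; ring
      have w3 : ∑ i, x i * y i = ((n : ℤ) + 4) := by
        rw [Finset.sum_congr rfl fun i _ => by rw [(g1 i).1, (g1 i).2], hcard]; ring
      have w4 : ∑ i, y i * x (i + 1) = ((n : ℤ) + 4) := by
        rw [Finset.sum_congr rfl fun i _ => by rw [(g1 i).2, (g1 (i + 1)).1], hcard]; ring
      have w5 : ∑ i, d i * x i = ∑ i, d i :=
        Finset.sum_congr rfl fun i _ => by rw [(g1 i).1, mul_one]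
      have w6 : ∑ i, d i * y (i + 1) = ∑ i, d i :=
        Finset.sum_congr rfl fun i _ => by rw [(g1 (i + 1)).2, mul_one]
      have w7 : ∑ i, d i + 1 ≤ ((n : ℤ) + 4) := by
        by_contra hcon
        have v1 : ∑ i, (1 - d i) ≤ 0 := by
          rw [Finset.sum_sub_distrib, hcard]; linarith
        have v2 := zero_of (fun i => 1 - d i)
          (fun i => by rcases hd i with h | h <;> simp [h]) v1
        have v3 : ∀ i, d i = 1 := fun i => by have := v2 i; linarith
        have v4 : ∑ i, d i * d (i + 1) = ∑ i, d i :=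
          Finset.sum_congr rfl fun i _ => by rw [v3 (i + 1), mul_one]
        omega
      apply fin hk <;> omega
    · by_cases hP : ∑ i, (2 * (d i * (1 - x i)) + 4 * (x i * (1 - d i))
          + 2 * (d i * (1 - y (i + 1))) + 4 * (y (i + 1) * (1 - d i))) ≤ 0
      · have v := zero_of (fun i => (2 * (d i * (1 - x i)) + 4 * (x i * (1 - d i))
          + 2 * (d i * (1 - y (i + 1))) + 4 * (y (i + 1) * (1 - d i)))) (fun i => by
            rcases hd i with h | h <;> rcases hx i with h' | h' <;>
              rcases hy (i + 1) with h'' | h'' <;> simp only [h, h', h''] <;> norm_num) hP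
        have vx : ∀ i, x i = d i := by
          intro i
          have := v i
          rcases hd i with h | h <;> rcases hx i with h' | h' <;>
            rcases hy (i + 1) with h'' | h'' <;> simp only [h, h', h''] at this ⊢ <;> norm_num at this
        have vy : ∀ i, y (i + 1) = d i := by
          intro i
          have := v i
          rcases hd i with h | h <;> rcases hx i with h' | h' <;>
            rcases hy (i + 1) with h'' | h'' <;> simp only [h, h', h''] at this ⊢ <;> norm_num at this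
        have u1 : ∑ i, x i = ∑ i, d i := Finset.sum_congr rfl fun i _ => vx i
        have u2 : ∑ i, y i = ∑ i, d i := by
          rw [← hY]; exact Finset.sum_congr rfl fun i _ => vy i
        have u3 : ∑ i, d i * x i = ∑ i, d i :=
          Finset.sum_congr rfl fun i _ => by
            rw [vx i]; rcases hd i with h | h <;> rw [h] <;> norm_num
        have u4 : ∑ i, d i * y (i + 1) = ∑ i, d i :=
          Finset.sum_congr rfl fun i _ => by
            rw [vy i]; rcases hd i with h | h <;> rw [h] <;> norm_num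
        have u5 : ∑ i, x i * y i = ∑ i, d i * d (i + 1) := by
          rw [← shiftSum (fun i => x i * y i)]
          exact Finset.sum_congr rfl fun i _ => by rw [vx (i + 1), vy i, mul_comm]
        have u6 : ∑ i, y i * x (i + 1) = ∑ i, d i * d (i + 1 + 1) := by
          rw [← shiftSum (fun i => y i * x (i + 1))]
          exact Finset.sum_congr rfl fun i _ => by rw [vx (i + 1 + 1), vy i]
        have q1 := sqdiff d (fun i => d (i + 1 + 1)) hd (fun i => hd _)
        have q2 : ∑ i, d (i + 1 + 1) = ∑ i, d i := by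
          rw [shiftSum (fun i => d (i + 1)), hD]
        rw [q2] at q1
        by_cases hQ : ∑ i, (d i - d (i + 1 + 1)) ^ 2 ≤ 0
        · have r1 := zero_of (fun i => (d i - d (i + 1 + 1)) ^ 2) (fun i => sq_nonneg _) hQ
          have r2 : ∀ i, d (i + 1 + 1) = d i := by
            intro i
            have := pow_eq_zero_iff (two_ne_zero) |>.1 (r1 i)
            linarith
          have r3 := constF (fun i => (d i - d (i + 1)) ^ 2) (by
            intro i
            show (d (i + 1) - d (i + 1 + 1)) ^ 2 = (d i - d (i + 1)) ^ 2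
            rw [r2 i]; ring)
          have r4 := sqdiff d (fun i => d (i + 1)) hd (fun i => hd _)
          rw [hD] at r4
          have r5 : ∑ i, (d i - d (i + 1)) ^ 2 = ((n : ℤ) + 4) * (d 0 - d (0 + 1)) ^ 2 := by
            rw [Finset.sum_congr rfl fun i _ => r3 i, hcard]
          have r6 : 1 ≤ (d 0 - d (0 + 1)) ^ 2 := by
            rcases hd 0 with h | h <;> rcases hd (0 + 1) with h' | h' <;> rw [h, h'] <;>
              norm_num
            all_goals
              rw [h, h'] at r5
              norm_num at r5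
              omega
          have r7 : 4 ≤ ∑ i, (d i - d (i + 1)) ^ 2 := by
            rw [r5]; nlinarith
          apply fin hk <;> omega
        · apply fin hk <;> omega
      · apply fin hk <;> omega

end Pool.Agent.W689.TD2
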